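import Pool.Agent.Helper76.TC.Goals

/-!
# Project TC (MP_ccd65d_gt), packet TC-BO (helper62)
-/

set_option autoImplicit false

open Set Topology

namespace Pool.Agent.Helper62.TC.BO

open Pool.Agent.Helper76.TC

theorem med_mono {a b c a' b' c' : ℝ} (h1 : a ≤ a') (h2 : b ≤ b') (h3 : c ≤ c') :
    med a b c ≤ med a' b' c' :=
  max_le_max (min_le_min h1 h2) (min_le_min (max_le_max h1 h2) h3)

theorem med_min (a b c x : ℝ) : med (min a x) (min b x) (min c x) = min (med a b c) x := by
  unfold med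
  rw [← min_max_distrib_right a b x, min_min_min_comm a x b x, min_min_min_comm (max a b) x c x,
    min_self]
  exact (min_max_distrib_right _ _ _).symm

theorem med_max (a b c x : ℝ) : med (max a x) (max b x) (max c x) = max (med a b c) x := by
  unfold med
  rw [← max_min_distrib_right a b x, max_max_max_comm a x b x, max_self,
    ← max_min_distrib_right (max a b) c x, max_max_max_comm, max_self]

theorem seg {u v : Fin 3 → ℝ} {A : Set (Fin 3 → ℝ)}
    (h : ∀ z, (∀ i, z i ∈ uIcc (u i) (v i)) → z ∈ A) : JoinedIn A u v := by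
  refine JoinedIn.of_segment_subset fun z hz => h z fun i => ?_
  obtain ⟨a, b, ha, hb, hab, rfl⟩ := hz
  exact segment_subset_uIcc (u i) (v i) ⟨a, b, ha, hb, hab, rfl⟩

/-- between `a` and `x` -/
theorem bt {p q b z : ℝ} (hz : z ∈ uIcc p (max (min p q) (min (max p q) b))) :
    min p b ≤ z ∧ z ≤ max p b := by
  obtain ⟨h1, h2⟩ := hz
  rcases le_total p q with h3 | h3 <;> rcases le_total p b with h4 | h4 <;>
    rcases le_total q b with h5 | h5 <;> simp_all <;> grind

theorem bt2 {p q b z : ℝ} (hz : z ∈ uIcc (max (min p q) (min (max p q) b)) q) :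
    min q b ≤ z ∧ z ≤ max q b := by
  obtain ⟨h1, h2⟩ := hz
  rcases le_total p q with h3 | h3 <;> rcases le_total p b with h4 | h4 <;>
    rcases le_total q b with h5 | h5 <;> simp_all <;> grind

theorem half (p q : Fin 3 → ℝ) (h : med (p 0) (p 1) (p 2) ≤ med (q 0) (q 1) (q 2)) :
    JoinedIn {z : Fin 3 → ℝ | (∀ i, z i ∈ uIcc (p i) (q i)) ∧
      med (z 0) (z 1) (z 2) ∈ uIcc (med (p 0) (p 1) (p 2)) (med (q 0) (q 1) (q 2))} p q := by
  obtain ⟨β, hβ⟩ : ∃ β, β = med (q 0) (q 1) (q 2) := ⟨_, rfl⟩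
  rw [← hβ] at h ⊢
  obtain ⟨p', hp'⟩ : ∃ p' : Fin 3 → ℝ, ∀ i, p' i = max (p i) (min (q i) β) := ⟨_, fun i => rfl⟩
  obtain ⟨r, hr⟩ : ∃ r : Fin 3 → ℝ, ∀ i, r i = max (min (p' i) (q i)) (min (max (p' i) (q i)) β) :=
    ⟨_, fun i => rfl⟩
  have c1 : ∀ i, p i ≤ p' i := fun i => by rw [hp']; exact le_max_left _ _
  have c2 : ∀ i, p' i ∈ uIcc (p i) (q i) := by
    intro i
    rw [hp' i]
    constructor
    · exact inf_le_left.trans (le_max_left _ _)
    · exact max_le le_sup_left ((min_le_left _ _).trans le_sup_right)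
  have c3 : ∀ i, r i ∈ uIcc (p i) (q i) := by
    intro i
    obtain ⟨h1, h2⟩ := c2 i
    rw [hr i]
    constructor
    · exact (le_min h1 inf_le_right).trans (le_max_left _ _)
    · exact max_le ((min_le_left _ _).trans h2) ((min_le_left _ _).trans (max_le h2 le_sup_right))
  have m1 : med (p' 0) (p' 1) (p' 2) = β := by
    apply le_antisymm
    · have e := med_max (p 0) (p 1) (p 2) β
      rw [max_eq_right h] at e
      rw [← e]
      have : ∀ i, p' i ≤ max (p i) β := fun i => by
        rw [hp']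
        exact max_le_max le_rfl (min_le_right _ _)
      exact med_mono (this 0) (this 1) (this 2)
    · have e := med_min (q 0) (q 1) (q 2) β
      rw [← hβ, min_self] at e
      rw [← e]
      have : ∀ i, min (q i) β ≤ p' i := fun i => by
        rw [hp']
        exact le_max_right _ _
      exact med_mono (this 0) (this 1) (this 2)
  have mid : ∀ (a z : Fin 3 → ℝ), med (a 0) (a 1) (a 2) = β →
      (∀ i, min (a i) β ≤ z i ∧ z i ≤ max (a i) β) → med (z 0) (z 1) (z 2) = β := by
    intro a z ha hz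
    apply le_antisymm
    · have e := med_max (a 0) (a 1) (a 2) β
      rw [ha, max_self] at e
      rw [← e]
      exact med_mono (hz 0).2 (hz 1).2 (hz 2).2
    · have e := med_min (a 0) (a 1) (a 2) β
      rw [ha, min_self] at e
      rw [← e]
      exact med_mono (hz 0).1 (hz 1).1 (hz 2).1
  have s1 : JoinedIn {z : Fin 3 → ℝ | (∀ i, z i ∈ uIcc (p i) (q i)) ∧
      med (z 0) (z 1) (z 2) ∈ uIcc (med (p 0) (p 1) (p 2)) β} p p' := by
    refine seg fun z hz => ⟨fun i => ?_, ?_⟩
    · exact uIcc_subset_uIcc_left (c2 i) (hz i)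
    · have h1 : ∀ i, p i ≤ z i := fun i => by
        have := (hz i).1
        rwa [min_eq_left (c1 i)] at this
      have h2 : ∀ i, z i ≤ p' i := fun i => by
        have := (hz i).2
        rwa [max_eq_right (c1 i)] at this
      rw [uIcc_of_le h]
      refine ⟨med_mono (h1 0) (h1 1) (h1 2), ?_⟩
      rw [← m1]
      exact med_mono (h2 0) (h2 1) (h2 2)
  have s2 : JoinedIn {z : Fin 3 → ℝ | (∀ i, z i ∈ uIcc (p i) (q i)) ∧
      med (z 0) (z 1) (z 2) ∈ uIcc (med (p 0) (p 1) (p 2)) β} p' r := by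
    refine seg fun z hz => ⟨fun i => ?_, ?_⟩
    · exact uIcc_subset_uIcc (c2 i) (c3 i) (hz i)
    · rw [mid p' z m1 fun i => bt (q := q i) (by rw [← hr i]; exact hz i)]
      exact right_mem_uIcc
  have s3 : JoinedIn {z : Fin 3 → ℝ | (∀ i, z i ∈ uIcc (p i) (q i)) ∧
      med (z 0) (z 1) (z 2) ∈ uIcc (med (p 0) (p 1) (p 2)) β} r q := by
    refine seg fun z hz => ⟨fun i => ?_, ?_⟩
    · exact uIcc_subset_uIcc_right (c3 i) (hz i)
    · rw [mid q z hβ.symm fun i => bt2 (p := p' i) (by rw [← hr i]; exact hz i)]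
      exact right_mem_uIcc
  exact (s1.trans s2).trans s3

theorem t : S_BO := by
  intro p q
  rcases le_total (med (p 0) (p 1) (p 2)) (med (q 0) (q 1) (q 2)) with h | h
  · exact half p q h
  · have h1 := (half q p h).symm
    have e : {z : Fin 3 → ℝ | (∀ i, z i ∈ uIcc (q i) (p i)) ∧
        med (z 0) (z 1) (z 2) ∈ uIcc (med (q 0) (q 1) (q 2)) (med (p 0) (p 1) (p 2))} =
        {z : Fin 3 → ℝ | (∀ i, z i ∈ uIcc (p i) (q i)) ∧
        med (z 0) (z 1) (z 2) ∈ uIcc (med (p 0) (p 1) (p 2)) (med (q 0) (q 1) (q 2))} := by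
      ext z
      constructor
      · rintro ⟨a, b⟩
        exact ⟨fun i => by rw [uIcc_comm]; exact a i, by rw [uIcc_comm]; exact b⟩
      · rintro ⟨a, b⟩
        exact ⟨fun i => by rw [uIcc_comm]; exact a i, by rw [uIcc_comm]; exact b⟩
    rw [e] at h1
    exact h1

end Pool.Agent.Helper62.TC.BO
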